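import Mathlib
import Pool.Agent.Lib.helper19.TradeMain

set_option autoImplicit false

namespace Pool.Agent.Results.MP_96963f_co.ExpLower

open Pool.Agent.H19Trade

theorem result (n : ℕ) (hn : 84 ≤ n) : ∃ f : (Fin n → Bool) → Bool, Monotone f ∧ ¬ Weighted f ∧
    ∀ k : ℕ, 1 ≤ k → k < 2 ^ (n / 42 - 1) → ¬ Trade f k := by
  obtain ⟨f, f1, f2, f3⟩ := main_fin (n / 42 - 1) n (by omega) (by omega)
  exact ⟨f, f1, f2, fun k h1 h2 h3 => absurd (f3 k h1 h3) (by omega)⟩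

end Pool.Agent.Results.MP_96963f_co.ExpLower
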